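import Pool.Agent.H29.RS.Targets
import Pool.Agent.H36.RT.GRP

/-!
# The coefficients, integer dilations
-/

set_option autoImplicit false

open Complex MeasureTheory Set Filter Topology

namespace Pool.Agent.H48.RS

open Pool.Agent.H29.RS Pool.Agent.H29.RT Pool.Agent.H25.DP Pool.Agent.H25.DL
open Pool.Agent.H36.RT (log_le_log)

variable {ι : Type} [Fintype ι]

lemma aa_eq {f : ι → Fac} (hI : ID f) (l : ι) : (f l).r = aa f l ∧ 1 ≤ aa f l := by
  obtain ⟨a, ha, hr⟩ := hI l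
  have h : aa f l = a := by
    unfold aa
    rw [hr, Nat.floor_natCast]
  rw [h]
  exact ⟨hr, ha⟩

lemma mem_TU {f : ι → Fac} {D T : ℝ} (hI : ID f) (z : ι → ℕ) :
    z ∈ TU f D T ↔ (∀ l, 1 ≤ z l) ∧
      ∑ l, (Nat.log 2 (z l) : ℝ) * aa f l * Real.log 2 ≤ D * Real.log T := by
  classical
  have hl2 : (0 : ℝ) < Real.log 2 := Real.log_pos one_lt_two
  unfold TU mains
  simp only [Finset.mem_biUnion, Finset.mem_filter, Fintype.mem_piFinset, Finset.mem_range,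
    Finset.mem_Ico]
  constructor
  · rintro ⟨j, ⟨_, hj⟩, hz⟩
    refine ⟨fun l => le_trans Nat.one_le_two_pow (hz l).1, ?_⟩
    refine le_trans (le_of_eq ?_) hj
    refine Finset.sum_congr rfl fun l _ => ?_
    rw [Nat.log_eq_of_pow_le_of_lt_pow (hz l).1 (hz l).2, (aa_eq hI l).1]
  · rintro ⟨h1, h2⟩
    refine ⟨fun l => Nat.log 2 (z l), ⟨fun l => ?_, ?_⟩, fun l => ⟨?_, ?_⟩⟩
    · refine Nat.lt_succ_of_le (Nat.le_floor ?_)
      rw [one_mul, le_div_iff₀ hl2]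
      refine le_trans ?_ h2
      have h3 := Finset.single_le_sum
        (f := fun l => (Nat.log 2 (z l) : ℝ) * aa f l * Real.log 2)
        (fun i _ => by positivity) (Finset.mem_univ l)
      refine le_trans ?_ h3
      have h4 : (1 : ℝ) ≤ aa f l := by exact_mod_cast (aa_eq hI l).2
      have h5 : (0 : ℝ) ≤ Nat.log 2 (z l) := Nat.cast_nonneg _
      exact mul_le_mul_of_nonneg_right (le_mul_of_one_le_right h5 h4) hl2.le
    · refine le_trans (le_of_eq ?_) h2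
      refine Finset.sum_congr rfl fun l _ => ?_
      rw [(aa_eq hI l).1]
    · exact Nat.pow_log_le_self 2 (Nat.one_le_iff_ne_zero.1 (h1 l))
    · exact Nat.lt_pow_succ_log_self one_lt_two _

lemma log_nn (f : ι → Fac) {z : ι → ℕ} (hz : ∀ l, 1 ≤ z l) :
    Real.log (nn f z) = ∑ l, (aa f l : ℝ) * Real.log (z l) := by
  unfold nn
  rw [Nat.cast_prod, Real.log_prod]
  · refine Finset.sum_congr rfl fun l _ => ?_
    rw [Nat.cast_pow, Real.log_pow]
  · intro l _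
    have := hz l
    positivity

lemma nn_pos (f : ι → Fac) {z : ι → ℕ} (hz : ∀ l, 1 ≤ z l) : 1 ≤ nn f z :=
  Nat.one_le_iff_ne_zero.2 (Finset.prod_ne_zero_iff.2 fun l _ =>
    pow_ne_zero _ (Nat.one_le_iff_ne_zero.1 (hz l)))

lemma dvd_nn {f : ι → Fac} (hI : ID f) (z : ι → ℕ) (l : ι) : z l ∣ nn f z :=
  (dvd_pow_self _ (by have := (aa_eq hI l).2; omega)).trans
    (Finset.dvd_prod_of_mem (fun l => z l ^ aa f l) (Finset.mem_univ l))

lemma prod_le_nn {f : ι → Fac} (hI : ID f) {z : ι → ℕ} (hz : ∀ l, 1 ≤ z l) :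
    ∏ l, z l ≤ nn f z :=
  Finset.prod_le_prod' fun l _ => Nat.le_self_pow (by have := (aa_eq hI l).2; omega) _

open Classical in
/-- the tuples with value `k` -/
noncomputable def Sk (f : ι → Fac) (k : ℕ) : Finset (ι → ℕ) :=
  (Fintype.piFinset fun _ : ι => k.divisors).filter (fun z => nn f z = k)

lemma mem_Sk {f : ι → Fac} {k : ℕ} {z : ι → ℕ} :
    z ∈ Sk f k ↔ (∀ l, z l ∈ k.divisors) ∧ nn f z = k := by
  classical
  unfold Sk
  rw [Finset.mem_filter, Fintype.mem_piFinset]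

open Classical in
lemma sub_Sk {f : ι → Fac} (hI : ID f) {D T : ℝ} {k : ℕ} (hk : 1 ≤ k) :
    (TU f D T).filter (fun z => nn f z = k) ⊆ Sk f k := by
  intro z hz
  rw [Finset.mem_filter] at hz
  rw [mem_Sk]
  refine ⟨fun l => ?_, hz.2⟩
  rw [Nat.mem_divisors]
  refine ⟨?_, Nat.one_le_iff_ne_zero.1 hk⟩
  rw [← hz.2]
  exact dvd_nn hI z l

lemma norm_co_le (f : ι → Fac) {z : ι → ℕ} (hz : ∀ l, 1 ≤ z l) :
    ‖co f z‖ ≤ (((∏ l, z l : ℕ) : ℝ)) ^ (-(1 / 2) : ℝ) := by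
  unfold co
  rw [norm_prod, Nat.cast_prod, ← Real.finsetProd_rpow _ _ fun l _ => Nat.cast_nonneg _]
  refine Finset.prod_le_prod (fun i _ => norm_nonneg _) fun i _ => ?_
  rw [norm_mul, Complex.norm_natCast_cpow_of_pos (hz i)]
  have : (-(1 / 2 + ((f i).τ : ℂ) * I)).re = -(1 / 2) := by simp
  rw [this]
  exact mul_le_of_le_one_left (Real.rpow_nonneg (Nat.cast_nonneg _) _) ((f i).c_le _)

/-- the weight `∏ 1 / z_l` -/
noncomputable def hw (z : ι → ℕ) : ℝ := ∏ l, ((z l : ℕ) : ℝ)⁻¹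

lemma hw_nonneg (z : ι → ℕ) : 0 ≤ hw z := Finset.prod_nonneg fun _ _ => by positivity

lemma hw_eq (z : ι → ℕ) : hw z = ((∏ l, z l : ℕ) : ℝ)⁻¹ := by
  unfold hw
  rw [Nat.cast_prod, Finset.prod_inv_distrib]

lemma norm_co_sq (f : ι → Fac) {z : ι → ℕ} (hz : ∀ l, 1 ≤ z l) : ‖co f z‖ ^ 2 ≤ hw z := by
  have hP : (0 : ℝ) < ((∏ l, z l : ℕ) : ℝ) := by
    exact_mod_cast Nat.pos_of_ne_zero (Finset.prod_ne_zero_iff.2 fun l _ =>
      Nat.one_le_iff_ne_zero.1 (hz l))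
  calc ‖co f z‖ ^ 2 ≤ ((((∏ l, z l : ℕ) : ℝ)) ^ (-(1 / 2) : ℝ)) ^ 2 :=
        pow_le_pow_left₀ (norm_nonneg _) (norm_co_le f hz) 2
    _ = hw z := by
        rw [hw_eq, ← Real.rpow_natCast, ← Real.rpow_mul hP.le, ← Real.rpow_neg_one]
        norm_num

lemma sum_hw (N : ℕ) [DecidableEq ι] :
    ∑ z ∈ Fintype.piFinset (fun _ : ι => Finset.Icc 1 N), hw z ≤
      (1 + Real.log N) ^ Fintype.card ι := by
  unfold hw
  rw [← Finset.prod_univ_sum (fun _ : ι => Finset.Icc 1 N) (fun _ n => ((n : ℕ) : ℝ)⁻¹),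
    Finset.prod_const, Finset.card_univ]
  refine pow_le_pow_left₀ (Finset.sum_nonneg fun _ _ => by positivity) ?_ _
  have h := harmonic_le_one_add_log N
  rw [harmonic_eq_sum_Icc] at h
  push_cast at h
  exact h

lemma log_pow_le (n : ℕ) {e : ℝ} (he : 0 < e) : ∃ C : ℝ, 0 < C ∧ ∀ x : ℝ, 1 ≤ x →
    (1 + Real.log x) ^ n ≤ C * x ^ e := by
  set η : ℝ := e / (n + 1) with hη
  have hη0 : 0 < η := by positivity
  refine ⟨(1 + 1 / η) ^ n, by positivity, fun x hx => ?_⟩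
  have hx0 : 0 < x := by linarith
  have h1 : 1 + Real.log x ≤ (1 + 1 / η) * x ^ η := by
    have h2 := Real.log_le_rpow_div hx0.le hη0
    have h3 : (1 : ℝ) ≤ x ^ η := Real.one_le_rpow hx hη0.le
    have h4 : x ^ η / η = 1 / η * x ^ η := by ring
    rw [h4] at h2
    linarith
  have h5 : 0 ≤ 1 + Real.log x := by
    have := Real.log_nonneg hx
    linarith
  calc (1 + Real.log x) ^ n ≤ ((1 + 1 / η) * x ^ η) ^ n := pow_le_pow_left₀ h5 h1 n
    _ = (1 + 1 / η) ^ n * x ^ (η * n) := by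
        rw [mul_pow, Real.rpow_mul hx0.le, Real.rpow_natCast]
    _ ≤ (1 + 1 / η) ^ n * x ^ e := by
        refine mul_le_mul_of_nonneg_left ?_ (by positivity)
        refine Real.rpow_le_rpow_of_exponent_le hx ?_
        rw [hη, div_mul_eq_mul_div, div_le_iff₀ (by positivity)]
        nlinarith

lemma card_Sk (f : ι → Fac) {e : ℝ} (he : 0 < e) : ∃ C : ℝ, 0 < C ∧ ∀ k : ℕ, 1 ≤ k →
    ((Sk f k).card : ℝ) ≤ C * (k : ℝ) ^ e := by
  classical
  set N := Fintype.card ι with hN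
  obtain ⟨C₀, hC₀, hdiv⟩ := Pool.Agent.H89.Cubic.div_bound (e / (N + 1)) (by positivity)
  refine ⟨C₀ ^ N, by positivity, ?_⟩
  intro k hk
  have hk1 : (1 : ℝ) ≤ k := by exact_mod_cast hk
  calc ((Sk f k).card : ℝ) ≤ ((Fintype.piFinset fun _ : ι => k.divisors).card : ℝ) := by
        unfold Sk
        exact_mod_cast Finset.card_filter_le _ _
    _ = (k.divisors.card : ℝ) ^ N := by
        rw [Fintype.card_piFinset, Finset.prod_const, Finset.card_univ]
        push_cast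
        rfl
    _ ≤ (C₀ * (k : ℝ) ^ (e / (N + 1))) ^ N :=
        pow_le_pow_left₀ (Nat.cast_nonneg _) (hdiv k hk) _
    _ = C₀ ^ N * (k : ℝ) ^ (e / (N + 1) * N) := by
        rw [mul_pow, Real.rpow_mul (by linarith), Real.rpow_natCast]
    _ ≤ C₀ ^ N * (k : ℝ) ^ e := by
        refine mul_le_mul_of_nonneg_left ?_ (by positivity)
        refine Real.rpow_le_rpow_of_exponent_le hk1 ?_
        rw [div_mul_eq_mul_div, div_le_iff₀ (by positivity)]
        nlinarith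

/-- the square of a sum over a subset of the tuples with value `k` -/
lemma sq_le (f : ι → Fac) {k : ℕ} {A : Finset (ι → ℕ)} (hA : A ⊆ Sk f k) :
    ‖∑ z ∈ A, co f z‖ ^ 2 ≤ ((Sk f k).card : ℝ) * ∑ z ∈ Sk f k, hw z := by
  have h1 : ‖∑ z ∈ A, co f z‖ ^ 2 ≤ (∑ z ∈ A, ‖co f z‖) ^ 2 :=
    pow_le_pow_left₀ (norm_nonneg _) (norm_sum_le _ _) 2
  have h2 : (∑ z ∈ A, ‖co f z‖) ^ 2 ≤ (A.card : ℝ) * ∑ z ∈ A, ‖co f z‖ ^ 2 :=
    sq_sum_le_card_mul_sum_sq
  have h3 : ∑ z ∈ A, ‖co f z‖ ^ 2 ≤ ∑ z ∈ Sk f k, hw z := by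
    calc ∑ z ∈ A, ‖co f z‖ ^ 2 ≤ ∑ z ∈ A, hw z := by
          refine Finset.sum_le_sum fun z hz => ?_
          exact norm_co_sq f fun l => Nat.pos_of_mem_divisors ((mem_Sk.1 (hA hz)).1 l)
      _ ≤ ∑ z ∈ Sk f k, hw z :=
          Finset.sum_le_sum_of_subset_of_nonneg hA fun z _ _ => hw_nonneg z
  have h4 : (A.card : ℝ) ≤ (Sk f k).card := by exact_mod_cast Finset.card_le_card hA
  refine h1.trans (h2.trans (mul_le_mul h4 h3 (Finset.sum_nonneg fun _ _ => by positivity)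
    (Nat.cast_nonneg _)))

lemma sum_sq (f : ι → Fac) {e : ℝ} (he : 0 < e) : ∃ C : ℝ, 0 < C ∧
    ∀ N : ℕ, 1 ≤ N → ∀ A : ℕ → Finset (ι → ℕ), (∀ k, 1 ≤ k → A k ⊆ Sk f k) →
      ∑ k ∈ Finset.Icc 1 N, ‖∑ z ∈ A k, co f z‖ ^ 2 ≤ C * (N : ℝ) ^ e := by
  classical
  obtain ⟨C₁, hC₁, h1⟩ := card_Sk f (e := e / 2) (by positivity)
  obtain ⟨C₂, hC₂, h2⟩ := log_pow_le (Fintype.card ι) (e := e / 2) (by positivity)
  refine ⟨C₁ * C₂, by positivity, fun N hN A hA => ?_⟩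
  have hN1 : (1 : ℝ) ≤ N := by exact_mod_cast hN
  have h3 : ∀ k ∈ Finset.Icc 1 N, ‖∑ z ∈ A k, co f z‖ ^ 2 ≤
      C₁ * (N : ℝ) ^ (e / 2) * ∑ z ∈ (Fintype.piFinset (fun _ : ι => Finset.Icc 1 N)).filter
        (fun z => nn f z = k), hw z := by
    intro k hk
    rw [Finset.mem_Icc] at hk
    refine (sq_le f (hA k hk.1)).trans ?_
    have h4 : Sk f k ⊆ (Fintype.piFinset (fun _ : ι => Finset.Icc 1 N)).filter
        (fun z => nn f z = k) := by
      intro z hz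
      rw [mem_Sk] at hz
      rw [Finset.mem_filter, Fintype.mem_piFinset]
      refine ⟨fun l => ?_, hz.2⟩
      rw [Finset.mem_Icc]
      exact ⟨Nat.pos_of_mem_divisors (hz.1 l), (Nat.divisor_le (hz.1 l)).trans hk.2⟩
    have h5 : ∑ z ∈ Sk f k, hw z ≤ ∑ z ∈ (Fintype.piFinset (fun _ : ι => Finset.Icc 1 N)).filter
        (fun z => nn f z = k), hw z :=
      Finset.sum_le_sum_of_subset_of_nonneg h4 fun z _ _ => hw_nonneg z
    have h6 : ((Sk f k).card : ℝ) ≤ C₁ * (N : ℝ) ^ (e / 2) := by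
      refine (h1 k hk.1).trans (mul_le_mul_of_nonneg_left ?_ hC₁.le)
      refine Real.rpow_le_rpow (Nat.cast_nonneg _) ?_ (by positivity)
      exact_mod_cast hk.2
    exact mul_le_mul h6 h5 (Finset.sum_nonneg fun _ _ => hw_nonneg _) (by positivity)
  calc ∑ k ∈ Finset.Icc 1 N, ‖∑ z ∈ A k, co f z‖ ^ 2
      ≤ ∑ k ∈ Finset.Icc 1 N, C₁ * (N : ℝ) ^ (e / 2) *
        ∑ z ∈ (Fintype.piFinset (fun _ : ι => Finset.Icc 1 N)).filter
          (fun z => nn f z = k), hw z := Finset.sum_le_sum h3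
    _ = C₁ * (N : ℝ) ^ (e / 2) * ∑ k ∈ Finset.Icc 1 N,
        ∑ z ∈ (Fintype.piFinset (fun _ : ι => Finset.Icc 1 N)).filter
          (fun z => nn f z = k), hw z := by rw [Finset.mul_sum]
    _ ≤ C₁ * (N : ℝ) ^ (e / 2) * ∑ z ∈ Fintype.piFinset (fun _ : ι => Finset.Icc 1 N), hw z := by
        refine mul_le_mul_of_nonneg_left ?_ (by positivity)
        exact Finset.sum_fiberwise_le_sum_of_sum_fiber_nonneg fun y _ =>
          Finset.sum_nonneg fun _ _ => hw_nonneg _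
    _ ≤ C₁ * (N : ℝ) ^ (e / 2) * (C₂ * (N : ℝ) ^ (e / 2)) := by
        refine mul_le_mul_of_nonneg_left ((sum_hw N).trans (h2 _ hN1)) (by positivity)
    _ = C₁ * C₂ * (N : ℝ) ^ e := by
        have : (N : ℝ) ^ e = (N : ℝ) ^ (e / 2) * (N : ℝ) ^ (e / 2) := by
          rw [← Real.rpow_add (by linarith)]
          congr 1
          ring
        rw [this]
        ring

open Classical in
theorem pf_GRS : T_GRS := by
  intro ι _ f D hI hD
  have part3 : ∃ K : ℝ, 1 ≤ K ∧ ∀ T : ℝ, 1 ≤ T → ∀ z ∈ TU f D T, (∀ l, 1 ≤ z l) ∧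
      (nn f z : ℝ) ≤ K * T ^ D := by
    refine ⟨2 ^ ∑ l, aa f l, one_le_pow₀ (by norm_num), fun T hT z hz => ?_⟩
    rw [mem_TU hI] at hz
    refine ⟨hz.1, ?_⟩
    have hT0 : (0 : ℝ) < T := by linarith
    have h1 : ∀ l, (((z l) ^ aa f l : ℕ) : ℝ) ≤
        2 ^ aa f l * Real.exp ((Nat.log 2 (z l) : ℝ) * aa f l * Real.log 2) := by
      intro l
      have h2 : ((z l : ℕ) : ℝ) ≤ 2 * 2 ^ (Nat.log 2 (z l)) := by
        have := (Nat.lt_pow_succ_log_self one_lt_two (z l)).le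
        rw [← pow_succ']
        exact_mod_cast this
      have h3 : Real.exp ((Nat.log 2 (z l) : ℝ) * aa f l * Real.log 2) =
          (2 ^ (Nat.log 2 (z l))) ^ aa f l := by
        have h4 : (Nat.log 2 (z l) : ℝ) * aa f l * Real.log 2 =
            ((Nat.log 2 (z l) * aa f l : ℕ) : ℝ) * Real.log 2 := by push_cast; ring
        rw [h4, ← Real.log_pow, Real.exp_log (by positivity), pow_mul]
      rw [h3, ← mul_pow, Nat.cast_pow]
      exact pow_le_pow_left₀ (Nat.cast_nonneg _) h2 _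
    calc (nn f z : ℝ) = ∏ l, (((z l) ^ aa f l : ℕ) : ℝ) := Nat.cast_prod _ _
      _ ≤ ∏ l, 2 ^ aa f l * Real.exp ((Nat.log 2 (z l) : ℝ) * aa f l * Real.log 2) :=
          Finset.prod_le_prod (fun l _ => Nat.cast_nonneg _) fun l _ => h1 l
      _ = 2 ^ (∑ l, aa f l) *
          Real.exp (∑ l, (Nat.log 2 (z l) : ℝ) * aa f l * Real.log 2) := by
          rw [Finset.prod_mul_distrib, Finset.prod_pow_eq_pow_sum, Real.exp_sum]
      _ ≤ 2 ^ (∑ l, aa f l) * Real.exp (D * Real.log T) := by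
          refine mul_le_mul_of_nonneg_left (Real.exp_le_exp.2 hz.2) (by positivity)
      _ = 2 ^ (∑ l, aa f l) * T ^ D := by
          rw [Real.rpow_def_of_pos hT0, mul_comm D]
  refine ⟨?_, ?_, ?_, ?_, ?_, ?_⟩
  · have h1 : Sk f 1 = {fun _ => 1} := by
      ext z
      rw [mem_Sk, Finset.mem_singleton]
      constructor
      · rintro ⟨h, -⟩
        funext l
        have := h l
        rw [Nat.divisors_one, Finset.mem_singleton] at this
        exact this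
      · rintro rfl
        refine ⟨fun l => by simp, ?_⟩
        unfold nn
        simp
    have h2 : bc f 1 = ∑ z ∈ Sk f 1, co f z := rfl
    rw [h2, h1, Finset.sum_singleton]
    unfold co
    refine Finset.prod_eq_one fun l _ => ?_
    rw [(f l).c_one]
    simp
  · intro T hT k hk hkT
    have h2 : bc f k = ∑ z ∈ Sk f k, co f z := rfl
    rw [h2]
    unfold bt
    refine Finset.sum_congr ?_ fun _ _ => rfl
    refine Finset.Subset.antisymm (sub_Sk hI hk) ?_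
    intro z hz
    rw [mem_Sk] at hz
    rw [Finset.mem_filter]
    refine ⟨?_, hz.2⟩
    have h1 : ∀ l, 1 ≤ z l := fun l => Nat.pos_of_mem_divisors (hz.1 l)
    rw [mem_TU hI]
    refine ⟨h1, ?_⟩
    have h3 : ∑ l, (Nat.log 2 (z l) : ℝ) * aa f l * Real.log 2 ≤ Real.log (nn f z) := by
      rw [log_nn f h1]
      refine Finset.sum_le_sum fun l _ => ?_
      have h4 := log_le_log (h1 l)
      have h5 : (0 : ℝ) ≤ aa f l := Nat.cast_nonneg _
      calc (Nat.log 2 (z l) : ℝ) * aa f l * Real.log 2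
          = aa f l * ((Nat.log 2 (z l) : ℝ) * Real.log 2) := by ring
        _ ≤ _ := mul_le_mul_of_nonneg_left h4 h5
    refine h3.trans ?_
    rw [hz.2, ← Real.log_rpow (by linarith)]
    refine Real.log_le_log ?_ hkT
    exact_mod_cast hk
  · obtain ⟨K, hK, h⟩ := part3
    exact ⟨K, by linarith, h⟩
  · intro z hz
    rw [log_nn f hz]
    unfold lam
    refine Finset.sum_congr rfl fun l _ => ?_
    rw [(aa_eq hI l).1]
  · intro e he
    obtain ⟨C, hC, h⟩ := sum_sq f he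
    refine ⟨C, hC, fun N hN => ⟨?_, fun T hT => ?_⟩⟩
    · exact h N hN (fun k => Sk f k) fun k _ => Finset.Subset.refl _
    · exact h N hN (fun k => (TU f D T).filter (fun z => nn f z = k)) fun k hk => sub_Sk hI hk
  · intro e he
    obtain ⟨K, hK, h3⟩ := part3
    obtain ⟨C, hC, h4⟩ := log_pow_le (Fintype.card ι) (e := e / D) (by positivity)
    refine ⟨K ^ (1 / 2 : ℝ) * (C * K ^ (e / D)), by positivity, fun T hT => ?_⟩
    have hT0 : (0 : ℝ) < T := by linarith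
    have hTD : (1 : ℝ) ≤ T ^ D := Real.one_le_rpow hT hD.le
    have hM1 : (1 : ℝ) ≤ K * T ^ D := one_le_mul_of_one_le_of_one_le hK hTD
    set M : ℝ := K * T ^ D with hM
    have hN1 : (1 : ℝ) ≤ (⌊M⌋₊ : ℝ) := by
      exact_mod_cast Nat.le_floor (by simpa using hM1)
    have h5 : ∀ z ∈ TU f D T, ‖co f z‖ ≤ M ^ (1 / 2 : ℝ) * hw z := by
      intro z hz
      obtain ⟨h6, h7⟩ := h3 T hT z hz
      refine (norm_co_le f h6).trans ?_
      have hP : (0 : ℝ) < ((∏ l, z l : ℕ) : ℝ) := by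
        exact_mod_cast Nat.pos_of_ne_zero (Finset.prod_ne_zero_iff.2 fun l _ =>
          Nat.one_le_iff_ne_zero.1 (h6 l))
      have hPM : ((∏ l, z l : ℕ) : ℝ) ≤ M := by
        refine le_trans ?_ h7
        exact_mod_cast prod_le_nn hI h6
      rw [hw_eq]
      have h8 : ((∏ l, z l : ℕ) : ℝ) ^ (-(1 / 2) : ℝ) =
          ((∏ l, z l : ℕ) : ℝ) ^ (1 / 2 : ℝ) * ((∏ l, z l : ℕ) : ℝ)⁻¹ := by
        rw [← Real.rpow_neg_one, ← Real.rpow_add hP]
        norm_num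
      rw [h8]
      exact mul_le_mul_of_nonneg_right (Real.rpow_le_rpow hP.le hPM (by norm_num))
        (by positivity)
    have h9 : TU f D T ⊆ Fintype.piFinset (fun _ : ι => Finset.Icc 1 ⌊M⌋₊) := by
      intro z hz
      obtain ⟨h6, h7⟩ := h3 T hT z hz
      rw [Fintype.mem_piFinset]
      intro l
      rw [Finset.mem_Icc]
      refine ⟨h6 l, Nat.le_floor ?_⟩
      refine le_trans ?_ h7
      exact_mod_cast Nat.le_of_dvd (nn_pos f h6) (dvd_nn hI z l)
    calc ∑ z ∈ TU f D T, ‖co f z‖ ≤ ∑ z ∈ TU f D T, M ^ (1 / 2 : ℝ) * hw z :=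
          Finset.sum_le_sum h5
      _ = M ^ (1 / 2 : ℝ) * ∑ z ∈ TU f D T, hw z := by rw [Finset.mul_sum]
      _ ≤ M ^ (1 / 2 : ℝ) * ∑ z ∈ Fintype.piFinset (fun _ : ι => Finset.Icc 1 ⌊M⌋₊), hw z := by
          refine mul_le_mul_of_nonneg_left ?_ (by positivity)
          exact Finset.sum_le_sum_of_subset_of_nonneg h9 fun z _ _ => hw_nonneg z
      _ ≤ M ^ (1 / 2 : ℝ) * (C * (⌊M⌋₊ : ℝ) ^ (e / D)) := by
          refine mul_le_mul_of_nonneg_left ((sum_hw _).trans (h4 _ hN1)) (by positivity)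
      _ ≤ M ^ (1 / 2 : ℝ) * (C * M ^ (e / D)) := by
          have h10 : (⌊M⌋₊ : ℝ) ≤ M := Nat.floor_le (by linarith)
          gcongr
      _ = K ^ (1 / 2 : ℝ) * (C * K ^ (e / D)) * T ^ (D / 2 + e) := by
          have hK0 : (0 : ℝ) ≤ K := by linarith
          rw [hM, Real.mul_rpow hK0 (by positivity), Real.mul_rpow hK0 (by positivity),
            ← Real.rpow_mul hT0.le, ← Real.rpow_mul hT0.le, Real.rpow_add hT0]
          have e1 : D * (1 / 2) = D / 2 := by ring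
          have e2 : D * (e / D) = e := by field_simp
          rw [e1, e2]
          ring

end Pool.Agent.H48.RS
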